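import Pool.Agent.Lib.MP_06e9af_co.Hub

namespace Pool.Agent.Lib.MP_06e9af_co.Old.ManyLeaves

open Pool.Agent.Lib.MP_06e9af_co

/-- Two trees, each with a vertex adjacent to `d` leaves and `d` further vertices adjacent to a
leaf: every graph on `m + n - 2 - d` vertices contains the first, or its complement the second. -/
theorem result (m n d : ℕ) (hm : 3 ≤ m) (hn : 3 ≤ n) (hd : 1 ≤ d)
    (S : SimpleGraph (Fin m)) (T : SimpleGraph (Fin n)) (hS : S.IsTree) (hT : T.IsTree)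
    (x : Fin m) (z : Fin n)
    (h1 : d ≤ {y | S.neighborSet y = {x}}.ncard)
    (h2 : d ≤ {q | q ≠ x ∧ ∃ y, S.neighborSet y = {q}}.ncard)
    (h3 : d ≤ {y | T.neighborSet y = {z}}.ncard)
    (h4 : d ≤ {q | q ≠ z ∧ ∃ y, T.neighborSet y = {q}}.ncard)
    (G : SimpleGraph (Fin (m + n - 2 - d))) : S.IsContained G ∨ T.IsContained Gᶜ :=
  hub_contained hm hn hd hS hT x z h1 h2 h3 h4 G

end Pool.Agent.Lib.MP_06e9af_co.Old.ManyLeaves
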