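import Pool.Agent.Results.MP_06e9af_co.TwoTrees

/-!
The former hand-in `NonStar`, derived from the hand-in `TwoTrees` that replaces it.
-/

namespace Pool.Agent.Lib.MP_06e9af_co.Old

/-- Every tree on `n ≥ 5` vertices other than the star has Ramsey number at most `2n - 4`. -/
theorem old_of_new (n : ℕ) (hn : 5 ≤ n) (T : SimpleGraph (Fin n)) (hT : T.IsTree)
    (hns : ¬ IsStar T) : ∃ r, IsRamseyNumber T r ∧ r ≤ 2 * n - 4 :=
  exists_ramsey ((Pool.Agent.Results.MP_06e9af_co.TwoTrees.result n hn T T hT hT).mpr ⟨hns, hns⟩)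

end Pool.Agent.Lib.MP_06e9af_co.Old
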